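import Mathlib

open scoped Pointwise commutatorElement

namespace Pool.Agent.P.MP_bb0bfc_al

variable {G : Type*} [Group G]

/-- Pairs (value of a word, inverse of the value of the reversed word). -/
def Rev (S : Set G) : Subgroup (G × G) where
  carrier := {z | ∃ w : List G, (∀ x ∈ w, x ∈ S ∨ x⁻¹ ∈ S) ∧ w.prod = z.1 ∧ w.reverse.prod = z.2⁻¹}
  one_mem' := ⟨[], by simp, by simp, by simp⟩
  mul_mem' := by
    rintro z z' ⟨w, hw, h1, h2⟩ ⟨w', hw', h1', h2'⟩
    refine ⟨w ++ w', ?_, ?_, ?_⟩
    · intro x hx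
      rcases List.mem_append.1 hx with h | h
      exacts [hw x h, hw' x h]
    · simp [h1, h1']
    · simp [List.reverse_append, h2, h2']
  inv_mem' := by
    rintro z ⟨w, hw, h1, h2⟩
    refine ⟨(w.map fun x => x⁻¹).reverse, ?_, ?_, ?_⟩
    · intro x hx
      simp only [List.mem_reverse, List.mem_map] at hx
      obtain ⟨y, hy, rfl⟩ := hx
      rcases hw y hy with h | h
      · right; simpa using h
      · left; exact h
    · rw [← List.prod_inv_reverse, h1]; rfl
    · have := List.prod_inv_reverse w.reverse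
      rw [List.map_reverse, List.reverse_reverse, h2] at this
      rw [List.reverse_reverse, ← this]; rfl

lemma gen_mem_Rev {S : Set G} {x : G} (hx : x ∈ S) : (x, x⁻¹) ∈ Rev S :=
  ⟨[x], by simp [hx], by simp, by simp⟩

lemma exists_mem_Rev {S : Set G} (hS : Subgroup.closure S = ⊤) (g : G) :
    ∃ q, (g, q) ∈ Rev S := by
  have hg : g ∈ Subgroup.closure S := hS ▸ Subgroup.mem_top g
  induction hg using Subgroup.closure_induction with
  | mem x hx => exact ⟨x⁻¹, gen_mem_Rev hx⟩
  | one => exact ⟨1, (Rev S).one_mem⟩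
  | mul x y _ _ hx hy =>
    obtain ⟨p, hp⟩ := hx
    obtain ⟨q, hq⟩ := hy
    exact ⟨p * q, (Rev S).mul_mem hp hq⟩
  | inv x _ hx =>
    obtain ⟨p, hp⟩ := hx
    exact ⟨p⁻¹, (Rev S).inv_mem hp⟩

/-- Values of words whose reversal is trivial. -/
def Ker (S : Set G) : Subgroup G := (Rev S).comap (MonoidHom.inl G G)

lemma Ker_normal {S : Set G} (hS : Subgroup.closure S = ⊤) : (Ker S).Normal := by
  constructor
  intro h hh g
  obtain ⟨q, hq⟩ := exists_mem_Rev hS g
  have := (Rev S).mul_mem ((Rev S).mul_mem hq hh) ((Rev S).inv_mem hq)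
  simpa [Ker] using this

lemma commutator_le_Ker {S S₀ : Set G} (hS₀ : Subgroup.closure S₀ = ⊤) (h1 : S₀ ⊆ S)
    (h2 : ∀ a ∈ S₀, ∀ b ∈ S₀, a * b ∈ S) : commutator G ≤ Ker S := by
  have hS : Subgroup.closure S = ⊤ := top_le_iff.1 (hS₀ ▸ Subgroup.closure_mono h1)
  haveI := Ker_normal hS
  set π := QuotientGroup.mk' (Ker S) with hπ
  have hgen : ∀ a ∈ S₀, ∀ b ∈ S₀, Commute (π a) (π b) := by
    intro a ha b hb
    have hk : (a * b)⁻¹ * (b * a) ∈ Ker S := by
      refine ⟨[(a * b)⁻¹, b, a], ?_, by simp [mul_assoc], by simp [mul_assoc]⟩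
      intro x hx
      simp only [List.mem_cons, List.not_mem_nil, or_false] at hx
      rcases hx with rfl | rfl | rfl
      · right; simpa using h2 a ha b hb
      · left; exact h1 hb
      · left; exact h1 ha
    have := QuotientGroup.eq.2 hk
    simpa [hπ, Commute, SemiconjBy] using this
  have hall : ∀ a b : G, Commute (π a) (π b) := by
    intro a b
    have ha : a ∈ Subgroup.closure S₀ := hS₀ ▸ Subgroup.mem_top a
    have hb : b ∈ Subgroup.closure S₀ := hS₀ ▸ Subgroup.mem_top b
    induction ha, hb using Subgroup.closure_induction₂ with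
    | mem x y hx hy => exact hgen x hx y hy
    | one_left x _ => simp
    | one_right x _ => simp
    | mul_left x y z _ _ _ h h' => rw [map_mul]; exact h.mul_left h'
    | mul_right y z x _ _ _ h h' => rw [map_mul]; exact h.mul_right h'
    | inv_left x y _ _ h => rw [map_inv]; exact h.inv_left
    | inv_right x y _ _ h => rw [map_inv]; exact h.inv_right
  rw [commutator_def, Subgroup.commutator_le]
  intro a _ b _
  have : π ⁅a, b⁆ = 1 := by
    rw [map_commutatorElement, commutatorElement_eq_one_iff_commute]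
    exact hall a b
  exact (QuotientGroup.eq_one_iff _).1 this

lemma exists_transversal (G : Type*) [Group G] [Group.FG G] :
    ∃ T : Finset G, ∀ g : G, ∃ c ∈ T, ∃ x : G,
      Abelianization.of g = Abelianization.of x * Abelianization.of c * Abelianization.of x := by
  classical
  set B := Abelianization G
  haveI : Group.FG B := Group.fg_of_surjective (f := Abelianization.of)
    (fun b => Quotient.inductionOn' b fun g => ⟨g, rfl⟩)
  set Sq : Subgroup B := (powMonoidHom 2 : B →* B).range with hSq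
  haveI : Group.FG (B ⧸ Sq) := Group.fg_of_surjective (QuotientGroup.mk'_surjective Sq)
  have htor : Monoid.IsTorsion (B ⧸ Sq) := by
    intro q
    obtain ⟨b, rfl⟩ := QuotientGroup.mk'_surjective Sq q
    refine isOfFinOrder_iff_pow_eq_one.2 ⟨2, by norm_num, ?_⟩
    rw [← map_pow]
    exact (QuotientGroup.eq_one_iff _).2 ⟨b, rfl⟩
  haveI : Finite (B ⧸ Sq) := CommGroup.finite_of_fg_torsion _ htor
  haveI := Fintype.ofFinite (B ⧸ Sq)
  have hsurj : Function.Surjective (fun g : G => (QuotientGroup.mk' Sq) (Abelianization.of g)) := by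
    intro q
    obtain ⟨b, rfl⟩ := QuotientGroup.mk'_surjective Sq q
    obtain ⟨g, rfl⟩ : ∃ g : G, Abelianization.of g = b :=
      Quotient.inductionOn' b fun g => ⟨g, rfl⟩
    exact ⟨g, rfl⟩
  choose sec hsec using hsurj
  refine ⟨Finset.univ.image sec, fun g => ?_⟩
  set q := (QuotientGroup.mk' Sq) (Abelianization.of g)
  refine ⟨sec q, Finset.mem_image_of_mem _ (Finset.mem_univ _), ?_⟩
  have h := hsec q
  obtain ⟨y, hy⟩ := QuotientGroup.eq.1 h
  obtain ⟨x, rfl⟩ : ∃ x : G, Abelianization.of x = y := Quotient.inductionOn' y fun g => ⟨g, rfl⟩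
  refine ⟨x, ?_⟩
  simp only [powMonoidHom_apply] at hy
  rw [mul_right_comm, ← sq, hy, mul_comm, mul_inv_cancel_left]

theorem all_palindromes (G : Type*) [Group G] [Group.FG G] :
    ∃ S : Finset G, Subgroup.closure (S : Set G) = ⊤ ∧
      ∀ g : G, ∃ w : List G, w.reverse = w ∧ (∀ x ∈ w, x ∈ S ∨ x⁻¹ ∈ S) ∧ w.prod = g := by
  classical
  obtain ⟨S₀, hS₀⟩ := (Group.fg_def.1 (inferInstance : Group.FG G))
  obtain ⟨T, hT⟩ := exists_transversal G
  set S : Finset G := S₀ ∪ S₀ * S₀ ∪ T with hSdef
  have h1 : (S₀ : Set G) ⊆ S := by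
    intro x hx
    simp only [hSdef, Finset.coe_union, Set.mem_union]
    exact Or.inl (Or.inl hx)
  have h2 : ∀ a ∈ (S₀ : Set G), ∀ b ∈ (S₀ : Set G), a * b ∈ (S : Set G) := by
    intro a ha b hb
    simp only [hSdef, Finset.coe_union, Set.mem_union]
    exact Or.inl (Or.inr (Finset.mul_mem_mul ha hb))
  have hS : Subgroup.closure (S : Set G) = ⊤ := top_le_iff.1 (hS₀ ▸ Subgroup.closure_mono h1)
  refine ⟨S, hS, fun g => ?_⟩
  obtain ⟨c, hc, x, hx⟩ := hT g
  obtain ⟨q, v, hv, hv1, hv2⟩ := exists_mem_Rev hS x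
  simp only at hv1 hv2
  have hq : Abelianization.of q⁻¹ = Abelianization.of x := by
    rw [← hv1, ← hv2, map_list_prod, map_list_prod, List.map_reverse, List.prod_reverse]
  have hk : g * (x * c * q⁻¹)⁻¹ ∈ commutator G := by
    rw [← Abelianization.ker_of, MonoidHom.mem_ker, map_mul, map_inv, map_mul, map_mul, hq, hx,
      mul_inv_cancel]
  obtain ⟨u, hu, hu1, hu2⟩ := commutator_le_Ker hS₀ h1 h2 hk
  simp only [MonoidHom.inl_apply, inv_one] at hu1 hu2
  refine ⟨u ++ v ++ [c] ++ v.reverse ++ u.reverse, by simp, ?_, ?_⟩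
  · intro y hy
    simp only [List.mem_append, List.mem_reverse, List.mem_singleton] at hy
    rcases hy with (((h | h) | h) | h) | h
    · exact hu y h
    · exact hv y h
    · left
      subst h
      simp only [hSdef, Finset.mem_union]
      exact Or.inr hc
    · exact hv y h
    · exact hu y h
  · simp only [List.prod_append, hu1, hu2, hv1, hv2, List.prod_singleton]
    group

end Pool.Agent.P.MP_bb0bfc_al
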